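import Pool.Agent.Helper94.YG.Desc2
import Pool.Agent.Helper94.YF.All

/-! # Project YG (MP_2b6189_al): dimension twice an odd number -/

set_option autoImplicit false

namespace Pool.Agent.Helper94.YG

open Matrix ComplexConjugate Pool.Agent.Helper94.YF

lemma s2_00 {L : ℕ} (b : ZMod L) (hb : b * b = b) : (s2 b : SL L) 0 0 = 1 - b := by
  simp only [s2, U, Lo, Matrix.SpecialLinearGroup.coe_mul]
  simp [Matrix.mul_apply, Fin.sum_univ_two]
  linear_combination -hb

lemma s2_01 {L : ℕ} (b : ZMod L) (hb : b * b = b) : (s2 b : SL L) 0 1 = -b := by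
  simp only [s2, U, Lo, Matrix.SpecialLinearGroup.coe_mul]
  simp [Matrix.mul_apply, Fin.sum_univ_two]
  linear_combination -b * hb - hb

lemma s2_10 {L : ℕ} (b : ZMod L) : (s2 b : SL L) 1 0 = b := by
  simp only [s2, U, Lo, Matrix.SpecialLinearGroup.coe_mul]
  simp [Matrix.mul_apply, Fin.sum_univ_two]

lemma s2_11 {L : ℕ} (b : ZMod L) (hb : b * b = b) : (s2 b : SL L) 1 1 = 1 - b := by
  simp only [s2, U, Lo, Matrix.SpecialLinearGroup.coe_mul]
  simp [Matrix.mul_apply, Fin.sum_univ_two]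
  linear_combination -hb

/-- the Steinberg vector is fixed by all automorphisms -/
lemma s2_fixed {I : Type} [Fintype I] [DecidableEq I] (Z : CentreRep I) (b : ZMod Z.L)
    (hb : b * b = b) (σ : ℂ ≃+* ℂ) (i : I) : σ (Z.rho (s2 b) i Z.o) = Z.rho (s2 b) i Z.o := by
  obtain ⟨c, hc⟩ := Z.galois σ
  have hcc : ((c⁻¹ : (ZMod Z.L)ˣ) : ZMod Z.L) * (c : ZMod Z.L) = 1 := by
    rw [← Units.val_mul]; simp
  set ci : ZMod Z.L := ((c⁻¹ : (ZMod Z.L)ˣ) : ZMod Z.L) with hci
  have h1 : ((1 - b) + ci * b) * ((1 - b) + (c : ZMod Z.L) * b) = 1 := by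
    linear_combination (1 - ci - (c : ZMod Z.L) + ci * (c : ZMod Z.L)) * hb + b * hcc
  let y : (ZMod Z.L)ˣ := ⟨(1 - b) + ci * b, (1 - b) + (c : ZMod Z.L) * b, h1, by
    rw [mul_comm]; exact h1⟩
  have hy : (y : ZMod Z.L) = (1 - b) + ci * b := rfl
  have hyi : ((y⁻¹ : (ZMod Z.L)ˣ) : ZMod Z.L) = (1 - b) + (c : ZMod Z.L) * b := rfl
  have key := hc (s2 b) (s2 b * Dg y) ?_ ?_ ?_ ?_ i Z.o
  · rw [← key, map_mul, Matrix.mul_apply]
    simp only [Z.borel]
    simp
  · rw [Matrix.SpecialLinearGroup.coe_mul, Matrix.mul_apply, Fin.sum_univ_two, s2_00 b hb, s2_01 b hb]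
    simp only [Dg]
    simp
    rw [hy]
    linear_combination (1 - ci) * hb
  · rw [Matrix.SpecialLinearGroup.coe_mul, Matrix.mul_apply, Fin.sum_univ_two, s2_00 b hb, s2_01 b hb]
    simp only [Dg]
    simp
    rw [hyi]
    linear_combination ((c : ZMod Z.L) - 1) * hb
  · rw [Matrix.SpecialLinearGroup.coe_mul, Matrix.mul_apply, Fin.sum_univ_two, s2_10 b, s2_11 b hb]
    simp only [Dg]
    simp
    rw [hy]
    linear_combination (ci * (c : ZMod Z.L) - (c : ZMod Z.L)) * hb + b * hcc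
  · rw [Matrix.SpecialLinearGroup.coe_mul, Matrix.mul_apply, Fin.sum_univ_two, s2_10 b, s2_11 b hb]
    simp only [Dg]
    simp
    rw [hyi]
    linear_combination (1 - (c : ZMod Z.L)) * hb

/-- Removing all primes which are coprime to `P`. -/
theorem desc_all {I : Type} [Fintype I] [DecidableEq I] (hF : StFUS) (hD : StDUA) (hR : StRAT)
    (Z : CentreData I) (P : ℕ) (b : ZMod Z.L) (hb : b * b = b) (hPL : P ∣ Z.L)
    (hPb : (P : ZMod Z.L) * b = 0) (q : ℕ) :
    ∀ t : ℕ, 0 < t → Nat.Coprime t P → ∀ M : I → ℤ,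
      (∀ i, (M i : ℂ) = ((q * t : ℕ) : ℂ) * Z.rho (s2 b) i Z.o) →
      ∃ y : I → ℤ, ∀ i, (y i : ℂ) = (q : ℂ) * Z.rho (s2 b) i Z.o := by
  intro t
  induction t using Nat.strong_induction_on with
  | _ t ih =>
    intro ht htP M hM
    by_cases h1 : t = 1
    · refine ⟨M, fun i => ?_⟩
      rw [hM, h1, mul_one]
    · set p := t.minFac with hp
      have hpp : p.Prime := Nat.minFac_prime h1
      obtain ⟨t', ht'⟩ : p ∣ t := Nat.minFac_dvd t
      have ht'0 : 0 < t' := by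
        rcases Nat.eq_zero_or_pos t' with h | h
        · rw [h] at ht'; omega
        · exact h
      have hlt : t' < t := by
        rw [ht']
        have := hpp.two_le
        nlinarith
      have hdv : ∀ i, (p : ℤ) ∣ M i := fun i =>
        descend hF hD hR Z P b hb hPL hPb p hpp (htP.coprime_dvd_left (Nat.minFac_dvd t)) (q * t)
          ((Nat.minFac_dvd t).mul_left q) M hM i
      choose M' hM' using hdv
      refine ih t' hlt ht'0 (htP.coprime_dvd_left ⟨p, by rw [ht']; ring⟩) M' fun i => ?_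
      have hp0 : (p : ℂ) ≠ 0 := by exact_mod_cast hpp.ne_zero
      have h2 := hM i
      rw [hM' i, ht'] at h2
      push_cast at h2 ⊢
      apply mul_left_cancel₀ hp0
      rw [h2]
      ring

theorem yve {I : Type} [Fintype I] [DecidableEq I] (hF : StFUS) (hD : StDUA) (hInt : StINT)
    (hR : StRAT) (Z : CentreData I) (P m : ℕ) (b : ZMod Z.L) (hI : Idem Z.L P b)
    (hn : Z.n = 2 * m) (hodd : Odd m) :
    ∃ y : I → ℤ, ∀ i, (y i : ℂ) = 2 * Z.rho (s2 b) i Z.o := by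
  obtain ⟨hb, hPb, ⟨a, hPa⟩, L', hL', -, -⟩ := hI
  have h0 : ∀ i, ∃ M : ℤ, (M : ℂ) = (Z.n : ℂ) * Z.rho (s2 b) i Z.o := by
    intro i
    have h1 : IsIntegral ℤ ((Z.n : ℂ) * Z.rho (s2 b) i Z.o) :=
      hInt I Z.toCentreRep (s2 b) i (-1) (by rw [s2_00 b hb, s2_10 b]; ring)
    have h2 : ∀ σ : ℂ ≃+* ℂ, σ ((Z.n : ℂ) * Z.rho (s2 b) i Z.o) =
        (Z.n : ℂ) * Z.rho (s2 b) i Z.o := by
      intro σ
      rw [map_mul, s2_fixed Z.toCentreRep b hb σ i, map_natCast]
    exact hR.1 _ h1 h2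
  choose M hM using h0
  have h3 := desc_all hF hD hR Z P b hb ⟨L', hL'⟩ hPb 2 m (by
    rcases Nat.eq_zero_or_pos m with h | h
    · rw [h] at hodd; exact absurd hodd (by decide)
    · exact h) (by
    rw [hPa]
    exact Nat.Coprime.pow_right a (Nat.Coprime.symm (Nat.coprime_two_left.2 hodd))) M (by
    intro i
    rw [hM i, hn])
  simpa using h3

theorem goal {I : Type} [Fintype I] [DecidableEq I] (Z : CentreData I) (m : ℕ)
    (hn : Z.n = 2 * m) (hm : Odd m) : Goal Z.toCentreRep := by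
  obtain ⟨a, b, hb, ha⟩ := hIDE Z.L Z.L_pos
  have ha1 : 1 ≤ a := ha (Z.cauchy 2 Nat.prime_two (by rw [hn]; exact dvd_mul_right 2 m))
  obtain ⟨y, hy0⟩ := yve Helper36.YF.hFUS Helper88.YF.hDUA Helper95.YF.hINT hRAT' Z (2 ^ a) m b hb
    hn hm
  have hy := Helper22.YF.hYPR Helper36.YF.hFUS Helper88.YF.hDUA I Z.toCentreRep b y hb.1 hy0
  rcases Nat.eq_or_lt_of_le ha1 with h | h
  · subst h
    rw [pow_one] at hb
    obtain ⟨X, h1, h2, h3, h4, h5⟩ := Helper16.YF.hBDA Helper36.YF.hFUS Helper88.YF.hDUA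
      Helper2.YF.hNRM hRAT' I Z.toCentreRep m b y hb hn hm hy
    refine good_goal Helper36.YF.hFUS Helper88.YF.hDUA Z.toCentreRep b y hy X h1 h2 h3 h4 h5 ?_
    rcases (Helper99.YF.hHS I X).2.2 with h | h
    · exact Helper34.YF.hCB Helper99.YF.hHS Helper53.YF.hDIV I X h
    · exact Helper33.YF.hCA Helper99.YF.hHS Helper53.YF.hDIV I X h
  · rcases Helper67.YF.hPF Helper36.YF.hFUS Helper88.YF.hDUA Helper2.YF.hRUL I Z.toCentreRep a b y
      h hb hy with h' | h'
    · exact h'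
    · exact Helper28.YF.hPX Helper36.YF.hFUS Helper88.YF.hDUA hRAT' Helper48.YF.hJH
        Helper40.YF.hORB Helper51.YF.hEV I Z.toCentreRep a b y h hb hy h'

/-- The Drinfeld centre of an integral fusion category of dimension `2 m`, `m` any odd number, contains
`Rep(Z/2)`. -/
theorem all (I : Type) [Fintype I] [DecidableEq I] (Z : CentreData I) (m : ℕ) (hn : Z.n = 2 * m)
    (hm : Odd m) :
    ∃ x, x ≠ Z.o ∧ Z.d x = 1 ∧ Z.th x = 1 ∧ Z.st x = x ∧
      ∀ k, Z.N x x k = if k = Z.o then 1 else 0 := by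
  obtain ⟨x, hx, hd, hth, hst⟩ := goal Z m hn hm
  exact ⟨x, hx, hd, hth, hst, square_unit Helper88.YF.hDUA Helper36.YF.hFUS Z.toCentreRep x hd hst⟩

end Pool.Agent.Helper94.YG
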