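import Pool.Agent.Helper94.YG.Tools

/-! # Project YG (MP_2b6189_al): the fusion matrices commute -/

set_option autoImplicit false

namespace Pool.Agent.Helper94.YG

open Matrix ComplexConjugate Pool.Agent.Helper94.YF

section
variable {I : Type} [Fintype I] [DecidableEq I] (Z : CentreRep I)

/-- the fusion matrix with natural entries -/
def NN (V : I) : Matrix I I ℕ := fun a b => Z.N a (Z.st b) V

theorem so_ne (t : I) : Z.rho Sm Z.o t ≠ 0 := by
  rw [Z.s_o]
  have h1 : (Z.n : ℂ) ≠ 0 := by exact_mod_cast Z.n_pos.ne'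
  have h2 : (Z.d t : ℂ) ≠ 0 := by exact_mod_cast (Z.d_pos t).ne'
  exact div_ne_zero h2 h1

theorem unit_row (k V : I) : ∑ t, Z.rho Sm k t * conj (Z.rho Sm V t) = if k = V then 1 else 0 := by
  have h := mul_eq_one_comm.mp (Z.unitary Sm)
  have h2 := congrFun (congrFun h k) V
  rw [Matrix.mul_apply, Matrix.one_apply] at h2
  simpa [Matrix.conjTranspose_apply] using h2

theorem NN_eq (V : I) : (NN Z V).map (Nat.cast : ℕ → ℂ) =
    Z.rho Sm * Matrix.diagonal (fun t => conj (Z.rho Sm V t) / Z.rho Sm Z.o t) * (Z.rho Sm)ᴴ := by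
  ext a b
  rw [Matrix.mul_apply]
  simp only [Matrix.mul_diagonal, Matrix.conjTranspose_apply, Matrix.map_apply, NN]
  have h1 : ∀ t, Z.rho Sm a t * (conj (Z.rho Sm V t) / Z.rho Sm Z.o t) * star (Z.rho Sm b t) =
      ∑ k, (Z.N a (Z.st b) k : ℂ) * (Z.rho Sm k t * conj (Z.rho Sm V t)) := by
    intro t
    have hv := Z.verlinde a (Z.st b) t
    rw [Z.s_dual] at hv
    have h0 := so_ne Z t
    have h2 : ∑ k, (Z.N a (Z.st b) k : ℂ) * Z.rho Sm k t =
        Z.rho Sm a t * conj (Z.rho Sm b t) / Z.rho Sm Z.o t := by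
      rw [hv]
      field_simp
    calc Z.rho Sm a t * (conj (Z.rho Sm V t) / Z.rho Sm Z.o t) * star (Z.rho Sm b t)
        = (Z.rho Sm a t * conj (Z.rho Sm b t) / Z.rho Sm Z.o t) * conj (Z.rho Sm V t) := by
          rw [show star (Z.rho Sm b t) = conj (Z.rho Sm b t) from rfl]
          ring
      _ = ∑ k, (Z.N a (Z.st b) k : ℂ) * (Z.rho Sm k t * conj (Z.rho Sm V t)) := by
          rw [← h2, Finset.sum_mul]
          exact Finset.sum_congr rfl fun k _ => by ring
  rw [Finset.sum_congr rfl fun t _ => h1 t, Finset.sum_comm]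
  simp only [← Finset.mul_sum, unit_row]
  simp

theorem NN_comm (V W : I) : NN Z V * NN Z W = NN Z W * NN Z V := by
  have hinj : Function.Injective ((Nat.castRingHom ℂ).mapMatrix : Matrix I I ℕ →+* Matrix I I ℂ) := by
    intro A B h
    ext i j
    have := congrFun (congrFun h i) j
    simpa using this
  apply hinj
  rw [map_mul, map_mul]
  have e : ∀ V, (Nat.castRingHom ℂ).mapMatrix (NN Z V) = (NN Z V).map (Nat.cast : ℕ → ℂ) :=
    fun V => rfl
  have hu : (Z.rho Sm)ᴴ * Z.rho Sm = 1 := Z.unitary Sm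
  rw [e, e, NN_eq, NN_eq]
  have key : ∀ D D' : I → ℂ, Z.rho Sm * Matrix.diagonal D * (Z.rho Sm)ᴴ *
      (Z.rho Sm * Matrix.diagonal D' * (Z.rho Sm)ᴴ) =
      Z.rho Sm * Matrix.diagonal (fun t => D t * D' t) * (Z.rho Sm)ᴴ := by
    intro D D'
    calc Z.rho Sm * Matrix.diagonal D * (Z.rho Sm)ᴴ *
          (Z.rho Sm * Matrix.diagonal D' * (Z.rho Sm)ᴴ)
        = Z.rho Sm * Matrix.diagonal D * ((Z.rho Sm)ᴴ * Z.rho Sm) * Matrix.diagonal D' *
            (Z.rho Sm)ᴴ := by simp only [Matrix.mul_assoc]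
      _ = _ := by
          rw [hu, Matrix.mul_one, Matrix.mul_assoc (Z.rho Sm), Matrix.diagonal_mul_diagonal]
  rw [key, key]
  congr 3
  ext t
  ring

end

end Pool.Agent.Helper94.YG
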