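import Pool.Agent.Helper94.YF.Defs

/-! # Project YG (MP_2b6189_al): definitions

The data of the Drinfeld centre of an integral fusion category, with the full theorem of Ng and Schauenburg
on generalized indicators of the objects of the centre itself. -/

set_option autoImplicit false

namespace Pool.Agent.Helper94.YG

open Matrix ComplexConjugate Pool.Agent.Helper94.YF

/-- `NMat N st V a b = dim Hom(X_a ⊗ X_b^*, X_V) = dim Hom(X_a, X_V ⊗ X_b)` -/
def NMat {I : Type} (N : I → I → I → ℕ) (st : I → I) (V : I) : Matrix I I ℂ :=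
  fun a b => (N a (st b) V : ℂ)

/-- The data `CentreRep` of the Drinfeld centre, together with the indicators of its own objects. -/
structure CentreData (I : Type) [Fintype I] [DecidableEq I] extends CentreRep I where
  indicatorV : ∀ (i j V : I) (k : ℕ), 0 < k → ∃ (M : ℕ) (lam : Fin M → ℂ),
    (∀ r, lam r ^ k = th i * conj (th j)) ∧
    ∀ (l : ℕ) (g : SL L), g 0 0 = ((k / l.gcd k : ℕ) : ZMod L) →
      g 0 1 = ((l / l.gcd k : ℕ) : ZMod L) →
      ∑ r, lam r ^ l =
        ∑ a, ∑ b, rho g a i * conj (rho g b j) * (NMat N st V ^ (l.gcd k)) a b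

end Pool.Agent.Helper94.YG
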