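import Pool.Agent.Helper94.YG.Comm

/-! # Project YG (MP_2b6189_al): the denominators of `rho (s2 b)` are powers of the primes in `P` -/

set_option autoImplicit false

namespace Pool.Agent.Helper94.YG

open Matrix ComplexConjugate Pool.Agent.Helper94.YF

/-- a power of `p` which is idempotent in `Z/L` and is `1` on the part prime to `p` -/
theorem idem_pow (L : ℕ) (hL : 0 < L) (p : ℕ) (hp : p.Prime) (P : ℕ) (hPL : P ∣ L)
    (hpP : Nat.Coprime p P) (b : ZMod L) (hPb : (P : ZMod L) * b = 0) :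
    ∃ c : ℕ, 0 < c ∧ ((p ^ c : ℕ) : ZMod L) * ((p ^ c : ℕ) : ZMod L) = ((p ^ c : ℕ) : ZMod L) ∧
      ((p ^ c : ℕ) : ZMod L) * b = b := by
  obtain ⟨e, L2, hL2, hLe⟩ := Nat.exists_eq_pow_mul_and_not_dvd hL.ne' p hp.ne_one
  have hcop : Nat.Coprime p L2 := (Nat.Prime.coprime_iff_not_dvd hp).2 hL2
  have hL2pos : 0 < L2 := by
    rcases Nat.eq_zero_or_pos L2 with h | h
    · exact absurd (h ▸ dvd_zero p) hL2
    · exact h
  have htot : 0 < Nat.totient L2 := Nat.totient_pos.2 hL2pos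
  refine ⟨Nat.totient L2 * (e + 1), Nat.mul_pos htot (Nat.succ_pos _), ?_, ?_⟩
  all_goals
    set k : ℕ := p ^ (Nat.totient L2 * (e + 1)) with hk
    have hkpos : 0 < k := by rw [hk]; exact pow_pos hp.pos _
    have h1 : L2 ∣ k - 1 := by
      have h := (Nat.ModEq.pow_totient hcop).pow (e + 1)
      rw [one_pow, ← pow_mul, ← hk] at h
      exact (Nat.modEq_iff_dvd' hkpos).1 h.symm
  · have h2 : p ^ e ∣ k := by
      rw [hk]
      apply pow_dvd_pow
      calc e ≤ e + 1 := Nat.le_succ _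
        _ = 1 * (e + 1) := (one_mul _).symm
        _ ≤ Nat.totient L2 * (e + 1) := Nat.mul_le_mul_right _ htot
    have h3 : L ∣ k * (k - 1) := by
      rw [hLe]
      exact Nat.mul_dvd_mul h2 h1
    have h4 : ((k * (k - 1) : ℕ) : ZMod L) = 0 := (ZMod.natCast_eq_zero_iff _ _).2 h3
    rw [Nat.cast_mul, Nat.cast_sub hkpos, Nat.cast_one] at h4
    linear_combination h4
  · have h2 : P ∣ L2 := by
      rw [hLe] at hPL
      exact (Nat.Coprime.pow_left e hpP).symm.dvd_of_dvd_mul_left hPL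
    obtain ⟨t, ht⟩ := h2.trans h1
    have h4 : ((k - 1 : ℕ) : ZMod L) * b = 0 := by
      rw [ht, Nat.cast_mul]
      linear_combination (t : ZMod L) * hPb
    rw [Nat.cast_sub hkpos, Nat.cast_one] at h4
    linear_combination h4

variable {I : Type} [Fintype I] [DecidableEq I]

theorem tw_int (hF : StFUS) (hD : StDUA) (Z : CentreRep I) (z : ZMod Z.L) (i : I) :
    IsIntegral ℤ (Z.tw z i) := by
  obtain ⟨-, f2, -⟩ := hF hD I Z
  have h1 : Z.tw z i ^ Z.L = 1 := by
    rw [CentreRep.tw, ← pow_mul, mul_comm, pow_mul, f2, one_pow]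
  refine IsIntegral.of_pow (n := Z.L) Z.L_pos ?_
  rw [h1]; exact isIntegral_one

theorem conj_int {z : ℂ} (h : IsIntegral ℤ z) : IsIntegral ℤ (conj z) := by
  have := h.map (starRingEnd ℂ : ℂ →+* ℂ).toIntAlgHom
  simpa using this

theorem nat_int (t : ℕ) : IsIntegral ℤ (t : ℂ) := by
  have : IsIntegral ℤ ((algebraMap ℤ ℂ) (t : ℤ)) := isIntegral_algebraMap
  simpa using this

theorem int_int (t : ℤ) : IsIntegral ℤ (t : ℂ) := by
  have : IsIntegral ℤ ((algebraMap ℤ ℂ) t) := isIntegral_algebraMap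
  simpa using this

/-- the matrix `(β, 1; β - 1, β)` for an idempotent `β` -/
def gB {L : ℕ} (β : ZMod L) (h : β * β = β) : SL L :=
  ⟨!![β, 1; β - 1, β], by rw [Matrix.det_fin_two_of, h]; ring⟩

theorem gB_conj {L : ℕ} (β b : ZMod L) (h : β * β = β) (hb : b * b = b) (hβ : β * b = b) :
    (gB β h)⁻¹ * Lo b * gB β h = U (-b) * Lo b * U b := by
  apply Subtype.ext
  rw [Matrix.SpecialLinearGroup.coe_mul, Matrix.SpecialLinearGroup.coe_mul,
    Matrix.SpecialLinearGroup.coe_mul, Matrix.SpecialLinearGroup.coe_mul,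
    Matrix.SpecialLinearGroup.coe_inv, gB, U, Lo, U, Matrix.adjugate_fin_two_of]
  ext i j
  fin_cases i <;> fin_cases j <;> simp [Matrix.mul_apply, Fin.sum_univ_two]
  · linear_combination h - hβ + hb
  · linear_combination -(b + 1) * hb
  · linear_combination hβ + b * h
  · linear_combination h + hβ - hb

/-- the values of the first indicators, combined with the coefficients of `c • rho (Lo b) e_o` -/
theorem lin_ident (hF : StFUS) (hD : StDUA) (Z : CentreRep I) (b β : ZMod Z.L)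
    (h : β * β = β) (hb : b * b = b) (hβ : β * b = b) (c : ℂ) (i : I) :
    ∑ V, (c * Z.rho (Lo b) V Z.o) * (∑ a, ∑ b', Z.rho (gB β h) a i *
      conj (Z.rho (gB β h) b' Z.o) * NMat Z.N Z.st V a b') =
    c * (Z.tw b i * Z.rho (Lo b) i Z.o) := by
  obtain ⟨f1, -, -, -, -, f6, -, f8, f9, -, -⟩ := hF hD I Z
  set g := gB β h with hg
  have h1 : ∀ V, (c * Z.rho (Lo b) V Z.o) * (∑ a, ∑ b', Z.rho g a i *
      conj (Z.rho g b' Z.o) * NMat Z.N Z.st V a b') =
      ∑ a, ∑ b', c * (Z.rho g a i * conj (Z.rho g b' Z.o)) *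
        ((Z.N a (Z.st b') V : ℂ) * Z.rho (Lo b) V Z.o) := by
    intro V
    rw [Finset.mul_sum]
    refine Finset.sum_congr rfl fun a _ => ?_
    rw [Finset.mul_sum]
    refine Finset.sum_congr rfl fun b' _ => ?_
    rw [NMat]
    ring
  rw [Finset.sum_congr rfl fun V _ => h1 V, Finset.sum_comm]
  have h2 : ∀ a, ∑ V, ∑ b', c * (Z.rho g a i * conj (Z.rho g b' Z.o)) *
        ((Z.N a (Z.st b') V : ℂ) * Z.rho (Lo b) V Z.o) =
      c * ∑ b', conj (Z.rho g b' Z.o) * Z.rho (Lo b) b' a * Z.rho g a i := by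
    intro a
    rw [Finset.sum_comm, Finset.mul_sum]
    refine Finset.sum_congr rfl fun b' _ => ?_
    rw [← Finset.mul_sum, ← f8 b a b', f9 b a b']
    ring
  rw [Finset.sum_congr rfl fun a _ => h2 a, ← Finset.mul_sum]
  congr 1
  have h3 : Z.rho (U (-b) * Lo b * U b) Z.o i = Z.tw b i * Z.rho (Lo b) i Z.o := by
    rw [map_mul, map_mul, f1, f1, Matrix.mul_diagonal, Matrix.diagonal_mul, f6, f9 b Z.o i]
    ring
  rw [← h3, ← gB_conj β b h hb hβ, map_mul, map_mul, Matrix.mul_apply]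
  refine Finset.sum_congr rfl fun a _ => ?_
  rw [Matrix.mul_apply, Finset.sum_mul]
  refine Finset.sum_congr rfl fun b' _ => ?_
  congr 2
  have h4 : Z.rho g⁻¹ = (Z.rho g)ᴴ := by
    have h5 : Z.rho g⁻¹ * Z.rho g = 1 := by rw [← map_mul, inv_mul_cancel, map_one]
    have h6 : (Z.rho g)ᴴ * Z.rho g = 1 := Z.unitary g
    calc Z.rho g⁻¹ = Z.rho g⁻¹ * (Z.rho g * (Z.rho g)ᴴ) := by
          rw [mul_eq_one_comm.mp h6, Matrix.mul_one]
      _ = (Z.rho g)ᴴ := by rw [← Matrix.mul_assoc, h5, Matrix.one_mul]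
  rw [h4, Matrix.conjTranspose_apply]
  rfl

theorem Lo_pow_idem (Z : CentreRep I) (b : ZMod Z.L) (k : ℕ) (hk : (k : ZMod Z.L) * b = b) :
    Z.rho (Lo b) ^ k = Z.rho (Lo b) := by
  have h1 : ∀ t : ℕ, (Lo b : SL Z.L) ^ t = Lo ((t : ZMod Z.L) * b) := by
    intro t
    induction t with
    | zero =>
      apply Subtype.ext
      ext i j
      fin_cases i <;> fin_cases j <;> simp [Lo]
    | succ t ih =>
      rw [pow_succ, ih]
      apply Subtype.ext
      rw [Matrix.SpecialLinearGroup.coe_mul]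
      ext i j
      fin_cases i <;> fin_cases j <;> simp [Lo, Matrix.mul_apply, Fin.sum_univ_two]
      ring
  rw [← map_pow, h1, hk]

end Pool.Agent.Helper94.YG
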