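import Pool.Agent.Helper94.YG.Desc

/-! # Project YG (MP_2b6189_al): Frobenius theorem, descent of denominators -/

set_option autoImplicit false

namespace Pool.Agent.Helper94.YG

open Matrix ComplexConjugate Pool.Agent.Helper94.YF

variable {I : Type} [Fintype I] [DecidableEq I]

theorem dvd_of_int (hR : StRAT) (p : ℕ) (hp : p.Prime) (m : ℤ) (k : ℕ) (T : ℂ)
    (hT : IsIntegral ℤ T) (h : (m : ℂ) ^ k = p * T) : (p : ℤ) ∣ m := by
  have hp0 : (p : ℂ) ≠ 0 := by exact_mod_cast hp.ne_zero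
  have hq : T = (((m : ℚ) ^ k / p : ℚ) : ℂ) := by
    push_cast
    rw [h]
    field_simp
  obtain ⟨t, ht⟩ := hR.2 _ (hq ▸ hT)
  have h2 : m ^ k = p * t := by
    have hp0' : (p : ℚ) ≠ 0 := by exact_mod_cast hp.ne_zero
    have : ((m ^ k : ℤ) : ℚ) = ((p * t : ℤ) : ℚ) := by
      push_cast
      rw [ht]; field_simp
    exact_mod_cast this
  exact (Nat.prime_iff_prime_int.1 hp).dvd_of_dvd_pow ⟨t, h2⟩

theorem descend (hF : StFUS) (hD : StDUA) (hR : StRAT) (Z : CentreData I) (P : ℕ)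
    (b : ZMod Z.L) (hb : b * b = b) (hPL : P ∣ Z.L) (hPb : (P : ZMod Z.L) * b = 0) (p : ℕ)
    (hp : p.Prime) (hpP : Nat.Coprime p P) (c : ℕ) (hpc : p ∣ c) (m : I → ℤ)
    (hm : ∀ i, (m i : ℂ) = c * Z.rho (s2 b) i Z.o) (i : I) : (p : ℤ) ∣ m i := by
  obtain ⟨e, he0, hβ, hβb⟩ := idem_pow Z.L Z.L_pos p hp P hPL hpP b hPb
  obtain ⟨f1, f2, f3, f4, f5, f6, f7, f8, f9, f10, f11⟩ := hF hD I Z.toCentreRep
  set k : ℕ := p ^ e with hk
  have hk2 : 2 ≤ k := by
    rw [hk]
    calc 2 ≤ p := hp.two_le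
      _ = p ^ 1 := (pow_one p).symm
      _ ≤ p ^ e := Nat.pow_le_pow_right hp.pos he0
  have hkpos : 0 < k := by omega
  set W : I → ℂ := fun V => c * Z.rho (Lo b) V Z.o with hW
  have hu : ∀ V, Z.rho (s2 b) V Z.o = Z.tw (-b) V * Z.rho (Lo b) V Z.o := by
    intro V
    have e1 : Z.rho (s2 b) = Matrix.diagonal (Z.tw (-b)) * Z.rho (Lo b) *
        Matrix.diagonal (Z.tw (-b)) := by
      rw [s2, map_mul, map_mul, f1]
    rw [e1, Matrix.mul_diagonal, Matrix.diagonal_mul, f6]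
    ring
  have htw : ∀ V, Z.tw b V * Z.tw (-b) V = 1 := by
    intro V
    rw [← f3, add_neg_cancel, f4]
  have hWm : ∀ V, W V = Z.tw b V * m V := by
    intro V
    rw [hm, hu, hW]
    linear_combination -(c * Z.rho (Lo b) V Z.o) * htw V
  have hWint : ∀ V, IsIntegral ℤ (W V) := by
    intro V
    rw [hWm]
    exact (tw_int hF hD _ b V).mul (int_int _)
  choose M lam hlam hsum using fun V => Z.indicatorV i Z.o V k hkpos
  have hlamint : ∀ V r, IsIntegral ℤ (lam V r) := by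
    intro V r
    have h1 : lam V r ^ (k * Z.L) = 1 := by
      rw [pow_mul, hlam, Z.th_o, map_one, mul_one, f2]
    refine IsIntegral.of_pow (n := k * Z.L) (Nat.mul_pos hkpos Z.L_pos) ?_
    rw [h1]; exact isIntegral_one
  have hp1 : ∀ V, ∑ r, lam V r = ∑ a, ∑ b', Z.rho (gB ((k : ℕ) : ZMod Z.L) hβ) a i *
      conj (Z.rho (gB ((k : ℕ) : ZMod Z.L) hβ) b' Z.o) * NMat Z.N Z.st V a b' := by
    intro V
    have h := hsum V 1 (gB ((k : ℕ) : ZMod Z.L) hβ) (by simp [gB]) (by simp [gB])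
    simpa using h
  have hgcd : k.gcd k = k := Nat.gcd_self k
  have hpk : ∀ V, ∑ r, lam V r ^ k = Z.th i * (NMat Z.N Z.st V ^ k) i Z.o := by
    intro V
    have h := hsum V k (U 1) (by rw [hgcd, Nat.div_self hkpos]; simp [U])
      (by rw [hgcd, Nat.div_self hkpos]; simp [U])
    rw [hgcd] at h
    rw [h, Z.rho_T]
    have h2 : ∀ a b', (Matrix.diagonal Z.th : Matrix I I ℂ) a i *
        conj ((Matrix.diagonal Z.th : Matrix I I ℂ) b' Z.o) * (NMat Z.N Z.st V ^ k) a b' =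
        if a = i then (if b' = Z.o then Z.th i * (NMat Z.N Z.st V ^ k) i Z.o else 0) else 0 := by
      intro a b'
      by_cases h3 : a = i
      · by_cases h4 : b' = Z.o
        · subst h3
          rw [if_pos rfl, if_pos h4, h4, Matrix.diagonal_apply_eq, Matrix.diagonal_apply_eq, Z.th_o,
            map_one, mul_one]
        · rw [if_pos h3, if_neg h4, Matrix.diagonal_apply_ne _ h4, map_zero, mul_zero, zero_mul]
      · rw [if_neg h3, Matrix.diagonal_apply_ne _ h3, zero_mul, zero_mul]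
    simp only [h2]
    simp
  -- Frobenius congruences
  choose t ht hfr using fun V => frobC p hp e Finset.univ (lam V) fun r _ => hlamint V r
  have hp1int : ∀ V, IsIntegral ℤ (∑ r, lam V r) := fun V =>
    IsIntegral.sum _ fun r _ => hlamint V r
  obtain ⟨t0, ht0, hfr0⟩ := frobC p hp e Finset.univ (fun V => W V * ∑ r, lam V r)
    fun V _ => (hWint V).mul (hp1int V)
  obtain ⟨R, hRint, hfrM⟩ := frobM p hp e (NN Z.toCentreRep) (NN_comm Z.toCentreRep) W hWint
  have hNN : ∀ V, (NN Z.toCentreRep V).map (Nat.cast : ℕ → ℂ) = NMat Z.N Z.st V := fun V => rfl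
  simp only [hNN] at hfrM
  rw [← hk] at hfrM hfr0
  have hsumM : ∑ V, W V • NMat Z.N Z.st V = (c : ℂ) • Z.rho (Lo b) := by
    ext a b'
    rw [Matrix.sum_apply, Matrix.smul_apply, f8 b a b', smul_eq_mul, Finset.mul_sum]
    refine Finset.sum_congr rfl fun V _ => ?_
    rw [Matrix.smul_apply, smul_eq_mul, NMat]
    ring
  rw [hsumM, smul_pow, Lo_pow_idem _ b k hβb] at hfrM
  have hM2 := congrFun (congrFun hfrM i) Z.o
  rw [Matrix.smul_apply, Matrix.add_apply, Matrix.sum_apply, Matrix.smul_apply, smul_eq_mul,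
    smul_eq_mul] at hM2
  simp only [Matrix.smul_apply, smul_eq_mul] at hM2
  -- the main identity
  have hX := lin_ident hF hD Z.toCentreRep b ((k : ℕ) : ZMod Z.L) hβ hb hβb c i
  have hX2 : ∑ V, W V * ∑ r, lam V r = Z.tw b i * W i := by
    rw [Finset.sum_congr rfl fun V _ => by rw [hp1 V], hX, hW]
    ring
  obtain ⟨c', hc'⟩ := hpc
  have hck : (c : ℂ) ^ k * Z.rho (Lo b) i Z.o = p * (c' * (c : ℂ) ^ (k - 2) * W i) := by
    have h1 : (c : ℂ) ^ k = (c : ℂ) * (c : ℂ) ^ (k - 2) * (c : ℂ) := by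
      have : k = 1 + (k - 2) + 1 := by omega
      conv_lhs => rw [this]
      rw [pow_add, pow_add]; ring
    have h2 : (c : ℂ) = p * c' := by
      have := congrArg (fun x : ℕ => (x : ℂ)) hc'
      simpa using this
    rw [h1, hW]
    generalize (c : ℂ) ^ (k - 2) = x
    simp only
    rw [h2]
    ring
  have hXk : (Z.tw b i * W i) ^ k = p * (Z.th i * (c' * (c : ℂ) ^ (k - 2) * W i - R i Z.o) +
      (∑ V, W V ^ k * t V) + t0) := by
    rw [← hX2, hfr0]
    have h1 : ∀ V, (W V * ∑ r, lam V r) ^ k =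
        Z.th i * (W V ^ k * (NMat Z.N Z.st V ^ k) i Z.o) + p * (W V ^ k * t V) := by
      intro V
      rw [mul_pow, hk, hfr V, ← hk, hpk V]
      ring
    rw [Finset.sum_congr rfl fun V _ => h1 V, Finset.sum_add_distrib, ← Finset.mul_sum,
      ← Finset.mul_sum]
    have h2 : ∑ V, W V ^ k * (NMat Z.N Z.st V ^ k) i Z.o =
        p * (c' * (c : ℂ) ^ (k - 2) * W i) - p * R i Z.o := by
      rw [← hck, hM2]
      ring
    rw [h2]
    ring
  have hTint : IsIntegral ℤ (Z.th i * (c' * (c : ℂ) ^ (k - 2) * W i - R i Z.o) +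
      (∑ V, W V ^ k * t V) + t0) := by
    have hthint : IsIntegral ℤ (Z.th i) := by
      rw [← f5 i]
      exact tw_int hF hD _ 1 i
    refine ((hthint.mul ((((nat_int c').mul ((nat_int c).pow _)).mul (hWint i)).sub
      (hRint i Z.o))).add (IsIntegral.sum _ fun V _ => ((hWint V).pow k).mul (ht V))).add ht0
  -- conclusion
  have hcj : (conj (Z.tw b i)) * Z.tw b i = 1 := f7 b i
  refine dvd_of_int hR p hp (m i) k ((conj (Z.tw b i)) ^ k * (conj (Z.tw b i)) ^ k *
    (Z.th i * (c' * (c : ℂ) ^ (k - 2) * W i - R i Z.o) +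
      (∑ V, W V ^ k * t V) + t0)) ?_ ?_
  · exact (((conj_int (tw_int hF hD _ b i)).pow k).mul ((conj_int (tw_int hF hD _ b i)).pow k)).mul
      hTint
  · have h3 : (m i : ℂ) ^ k = (conj (Z.tw b i)) ^ k * (conj (Z.tw b i)) ^ k *
        (Z.tw b i * W i) ^ k := by
      rw [hWm i, ← mul_pow, ← mul_pow]
      congr 1
      linear_combination (-(m i : ℂ) * (conj (Z.tw b i) * Z.tw b i + 1)) * hcj
    rw [h3, hXk]
    ring

end Pool.Agent.Helper94.YG
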