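import Pool.Agent.Helper94.YG.Defs
import Pool.Agent.Helper94.YF.St

/-! # Project YG (MP_2b6189_al): tools -/

set_option autoImplicit false

namespace Pool.Agent.Helper94.YG

open Matrix ComplexConjugate Pool.Agent.Helper94.YF

theorem sum_frob {R : Type} [Ring R] (p : ℕ) (hp : p.Prime) (n : ℕ) {K : Type} [DecidableEq K]
    (s : Finset K) (f : K → R) (hf : ∀ i ∈ s, ∀ j ∈ s, Commute (f i) (f j)) :
    ∃ r : R, (∑ i ∈ s, f i) ^ p ^ n = ∑ i ∈ s, f i ^ p ^ n + p * r := by
  induction s using Finset.induction_on with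
  | empty =>
    refine ⟨0, ?_⟩
    simp [hp.ne_zero]
  | insert a s ha ih =>
    obtain ⟨r, hr⟩ := ih fun i hi j hj => hf i (Finset.mem_insert_of_mem hi) j
      (Finset.mem_insert_of_mem hj)
    have hc : Commute (f a) (∑ i ∈ s, f i) :=
      Commute.sum_right _ _ _ fun i hi => hf a (Finset.mem_insert_self _ _) i
        (Finset.mem_insert_of_mem hi)
    obtain ⟨r', hr'⟩ := hc.exists_add_pow_prime_pow_eq hp n
    refine ⟨r + f a * (∑ i ∈ s, f i) * r', ?_⟩
    rw [Finset.sum_insert ha, Finset.sum_insert ha, hr', hr]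
    noncomm_ring

/-- Frobenius for a sum of algebraic integers -/
theorem frobC (p : ℕ) (hp : p.Prime) (n : ℕ) {K : Type} [DecidableEq K] (s : Finset K)
    (f : K → ℂ) (hf : ∀ i ∈ s, IsIntegral ℤ (f i)) :
    ∃ t : ℂ, IsIntegral ℤ t ∧ (∑ i ∈ s, f i) ^ p ^ n = ∑ i ∈ s, f i ^ p ^ n + p * t := by
  classical
  let F : K → integralClosure ℤ ℂ := fun i => if h : i ∈ s then ⟨f i, hf i h⟩ else 0
  obtain ⟨r, hr⟩ := sum_frob p hp n s F fun i _ j _ => Commute.all _ _
  refine ⟨(r : ℂ), r.2, ?_⟩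
  have h1 := congrArg (fun x : integralClosure ℤ ℂ => (x : ℂ)) hr
  have h2 : ∀ i ∈ s, ((F i : integralClosure ℤ ℂ) : ℂ) = f i := fun i hi => by
    simp [F, hi]
  have h3 : ((∑ i ∈ s, F i : integralClosure ℤ ℂ) : ℂ) = ∑ i ∈ s, f i := by
    push_cast
    exact Finset.sum_congr rfl h2
  have h4 : ((∑ i ∈ s, F i ^ p ^ n : integralClosure ℤ ℂ) : ℂ) = ∑ i ∈ s, f i ^ p ^ n := by
    push_cast
    exact Finset.sum_congr rfl fun i hi => by rw [h2 i hi]
  push_cast at h1 h3 h4
  rw [h3, h4] at h1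
  exact h1

/-- Frobenius for a combination of commuting natural matrices with coefficients algebraic integers -/
theorem frobM {I : Type} [Fintype I] [DecidableEq I] (p : ℕ) (hp : p.Prime) (n : ℕ)
    (NN : I → Matrix I I ℕ) (hc : ∀ V W, NN V * NN W = NN W * NN V) (w : I → ℂ)
    (hw : ∀ V, IsIntegral ℤ (w V)) :
    ∃ R : Matrix I I ℂ, (∀ i j, IsIntegral ℤ (R i j)) ∧
      (∑ V, w V • (NN V).map (Nat.cast : ℕ → ℂ)) ^ p ^ n =
        ∑ V, w V ^ p ^ n • ((NN V).map (Nat.cast : ℕ → ℂ)) ^ p ^ n + (p : ℂ) • R := by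
  classical
  let A := integralClosure ℤ ℂ
  let W : I → A := fun V => ⟨w V, hw V⟩
  let NA : I → Matrix I I A := fun V => (NN V).map (Nat.cast : ℕ → A)
  have hNA : ∀ V, NA V = (Nat.castRingHom A).mapMatrix (NN V) := fun V => rfl
  have hcA : ∀ V V', Commute (W V • NA V) (W V' • NA V') := by
    intro V V'
    apply Commute.smul_left
    apply Commute.smul_right
    show NA V * NA V' = NA V' * NA V
    rw [hNA, hNA, ← map_mul, ← map_mul, hc]
  obtain ⟨r, hr⟩ := sum_frob p hp n Finset.univ (fun V => W V • NA V) fun i _ j _ => hcA i j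
  let φ : Matrix I I A →+* Matrix I I ℂ := (algebraMap A ℂ).mapMatrix
  have hφN : ∀ V, φ (NA V) = (NN V).map (Nat.cast : ℕ → ℂ) := by
    intro V
    ext i j
    simp [φ, NA]
  have hφs : ∀ (a : A) (X : Matrix I I A), φ (a • X) = (a : ℂ) • φ X := by
    intro a X
    ext i j
    simp only [φ, RingHom.mapMatrix_apply, Matrix.map_apply, Matrix.smul_apply, smul_eq_mul,
      map_mul]
    rfl
  refine ⟨φ r, fun i j => (r i j).2, ?_⟩
  have h1 := congrArg φ hr
  rw [map_pow, map_sum, map_add, map_sum, map_mul, map_natCast] at h1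
  simp only [smul_pow, hφs, map_pow, hφN] at h1
  have h2 : ((p : ℕ) : Matrix I I ℂ) * φ r = (p : ℂ) • φ r := by
    rw [← nsmul_eq_mul]
    ext i j
    simp
  rw [← h2]
  exact h1

end Pool.Agent.Helper94.YG
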